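import Pool.Agent.H519R2.TSP.Vol
import Pool.Agent.Results.MP_08c4cb_co.SpherePacking

/-! Blichfeldt's bound for the packing density, from the Starting point file
`Pool/Agent/Results/MP_08c4cb_co/SpherePacking.lean` (MP_3f7b2e_co). -/

open MeasureTheory Metric Filter Set
open scoped Topology

namespace Pool.Agent.H519R2.TSP

open Pool.Agent.Results.MP_08c4cb_co

lemma theta_mul_le {d : ℕ} (hd : 0 < d) :
    theta d * (√((d : ℝ) / (2 * ((d : ℝ) + 1)))) ^ d ≤ ((d : ℝ) + 1) * (1 / 2) ^ d := by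
  classical
  have : NeZero d := ⟨hd.ne'⟩
  set r := √((d : ℝ) / (2 * ((d : ℝ) + 1))) with hr
  have hr0 : 0 ≤ r := Real.sqrt_nonneg _
  have hV : 0 < V d := V_pos d
  have hom : SpherePacking.om d = V d := by rw [V_eq]; rfl
  have key : ∀ K : ℝ, 0 < K → theta d * r ^ d ≤ ((d : ℝ) + 1) * (1 / 2 + 2 / K) ^ d := by
    intro K hK
    obtain ⟨P, hP, hPC, hcard⟩ := exists_cube d hK
    set X := P.image (fun x => (1 / 2 : ℝ) • x) with hX
    have hinj : Function.Injective (fun x : EuclideanSpace ℝ (Fin d) => (1 / 2 : ℝ) • x) := by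
      intro x y hxy
      exact smul_right_injective _ (by norm_num : (1 / 2 : ℝ) ≠ 0) hxy
    have hXc : X.card = P.card := Finset.card_image_of_injective _ hinj
    have hXs : Pool.Agent.H818R2.Sep (1 / 2 * 2) X :=
      sep_smul (by norm_num) hP X (by intro x; simp [hX])
    have h1 := SpherePacking.card_le (n := d) hd (L := K / 2) (by positivity) (X := X)
      (by
        intro x hx i
        obtain ⟨y, hy, rfl⟩ := Finset.mem_image.1 hx
        have h2 := hPC hy i
        rw [PiLp.smul_apply, smul_eq_mul]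
        constructor <;> linarith [h2.1, h2.2])
      (by
        intro x hx y hy hxy
        have := hXs x hx y hy hxy
        linarith)
    rw [hXc, hom, ← hr] at h1
    have h2 : theta d * K ^ d * r ^ d ≤ ((d : ℝ) + 1) * (K / 2 + 2) ^ d := by
      calc theta d * K ^ d * r ^ d ≤ (P.card * V d) * r ^ d :=
            mul_le_mul_of_nonneg_right hcard (by positivity)
        _ = P.card * (r ^ d * V d) := by ring
        _ ≤ _ := h1
    have hKd : 0 < K ^ d := by positivity
    have h3 : ((d : ℝ) + 1) * (1 / 2 + 2 / K) ^ d * K ^ d = ((d : ℝ) + 1) * (K / 2 + 2) ^ d := by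
      rw [mul_assoc, ← mul_pow]
      congr 2
      field_simp
    have h4 : theta d * r ^ d * K ^ d ≤ ((d : ℝ) + 1) * (1 / 2 + 2 / K) ^ d * K ^ d := by
      rw [h3]; linarith
    exact le_of_mul_le_mul_right h4 hKd
  have hlim : Tendsto (fun K : ℝ => ((d : ℝ) + 1) * (1 / 2 + 2 / K) ^ d) atTop
      (𝓝 (((d : ℝ) + 1) * (1 / 2 + 0) ^ d)) := by
    apply Tendsto.const_mul
    apply Tendsto.pow
    exact tendsto_const_nhds.add (tendsto_const_nhds.div_atTop tendsto_id)
  rw [add_zero] at hlim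
  refine ge_of_tendsto hlim ?_
  filter_upwards [eventually_gt_atTop 0] with K hK
  exact key K hK

lemma tt_le {d : ℕ} (hd : 0 < d) :
    tt d ≤ ((d : ℝ) + 1) ^ ((1 : ℝ) / d) * (1 / 2 / √((d : ℝ) / (2 * ((d : ℝ) + 1)))) := by
  have h := theta_mul_le hd
  have hd0 : (0 : ℝ) < d := by exact_mod_cast hd
  set r := √((d : ℝ) / (2 * ((d : ℝ) + 1))) with hr
  have hr0 : 0 < r := Real.sqrt_pos.2 (by positivity)
  have h1 : theta d ≤ ((d : ℝ) + 1) * (1 / 2 / r) ^ d := by
    rw [div_pow, ← mul_div_assoc, le_div_iff₀ (by positivity)]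
    exact h
  calc tt d ≤ (((d : ℝ) + 1) * (1 / 2 / r) ^ d) ^ ((1 : ℝ) / d) :=
        Real.rpow_le_rpow (Pool.Agent.H818R2.rho_nonneg d) h1 (by positivity)
    _ = ((d : ℝ) + 1) ^ ((1 : ℝ) / d) * (1 / 2 / r) := by
        rw [Real.mul_rpow (by positivity) (by positivity), ← Real.rpow_natCast (1 / 2 / r),
          ← Real.rpow_mul (by positivity), mul_one_div_cancel hd0.ne', Real.rpow_one]

lemma limsup_tt : limsup tt atTop ≤ 1 / √2 := by
  have h1 : Tendsto (fun d : ℕ => ((d : ℝ) + 1) ^ ((1 : ℝ) / d)) atTop (𝓝 1) := by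
    have h2 : Tendsto (fun d : ℕ => Real.exp (Real.log ((d : ℝ) + 1) / d)) atTop (𝓝 (Real.exp 0)) :=
      (Real.continuous_exp.tendsto _).comp tendsto_log_div
    rw [Real.exp_zero] at h2
    refine h2.congr' ?_
    filter_upwards [eventually_gt_atTop 0] with d hd
    rw [Real.rpow_def_of_pos (by positivity), mul_one_div]
  have h3 : Tendsto (fun d : ℕ => (d : ℝ) / (2 * ((d : ℝ) + 1))) atTop (𝓝 (1 / 2)) := by
    have : Tendsto (fun n : ℕ => 1 / 2 - 1 / (2 * ((n : ℝ) + 1))) atTop (𝓝 (1 / 2 - 0)) := by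
      apply tendsto_const_nhds.sub
      apply tendsto_const_nhds.div_atTop
      exact (tendsto_atTop_add_const_right _ _ tendsto_natCast_atTop_atTop).const_mul_atTop two_pos
    rw [sub_zero] at this
    refine this.congr (fun n => ?_)
    field_simp
    ring
  have h4 : Tendsto (fun d : ℕ => √((d : ℝ) / (2 * ((d : ℝ) + 1)))) atTop (𝓝 (√(1 / 2))) :=
    (Real.continuous_sqrt.tendsto _).comp h3
  have h5 : Tendsto (fun d : ℕ => ((d : ℝ) + 1) ^ ((1 : ℝ) / d) *
      (1 / 2 / √((d : ℝ) / (2 * ((d : ℝ) + 1))))) atTop (𝓝 (1 * (1 / 2 / √(1 / 2)))) :=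
    h1.mul (tendsto_const_nhds.div h4 (by positivity))
  have h6 : 1 * (1 / 2 / √(1 / 2)) = 1 / √2 := by
    rw [one_mul, Real.sqrt_div zero_le_one, Real.sqrt_one]
    have h2 : √2 * √2 = 2 := Real.mul_self_sqrt (by norm_num)
    have h3 : 0 < √(2 : ℝ) := by positivity
    field_simp
    linarith
  rw [h6] at h5
  calc limsup tt atTop ≤ limsup (fun d : ℕ => ((d : ℝ) + 1) ^ ((1 : ℝ) / d) *
      (1 / 2 / √((d : ℝ) / (2 * ((d : ℝ) + 1))))) atTop := by
        refine limsup_le_limsup ?_ tt_bdd'.isCoboundedUnder_le h5.isBoundedUnder_le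
        filter_upwards [eventually_gt_atTop 0] with d hd
        exact tt_le hd
    _ = 1 / √2 := h5.limsup_eq

end Pool.Agent.H519R2.TSP
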