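import Pool.Agent.H519R2.TSP.Sum

/-! Volume of the unit ball: `V_d^{1/d} √d → √(2πe)`, and the limit `d → ∞` (MP_3f7b2e_co).
`lg_fact` and `log_Gamma_half` are copied from the Starting point file
`Pool/Agent/Results/MP_08c4cb_co/SpherePacking.lean`. -/

open MeasureTheory Metric Filter Set
open scoped Topology

namespace Pool.Agent.H519R2.TSP

theorem lg_fact (m : ℕ) (hm : 1 ≤ m) :
    (m : ℝ) * Real.log m - m ≤ Real.log (m.factorial : ℝ) ∧
    Real.log (m.factorial : ℝ) ≤ (m : ℝ) * Real.log m - m + Real.log m + 1 := by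
  induction m, hm using Nat.le_induction with
  | base => norm_num
  | succ m hm ih =>
    have hm0 : (0 : ℝ) < m := by exact_mod_cast hm
    have hf : Real.log ((m + 1).factorial : ℝ) = Real.log ((m : ℝ) + 1) +
        Real.log (m.factorial : ℝ) := by
      rw [Nat.factorial_succ]
      push_cast
      rw [Real.log_mul (by positivity) (by positivity)]
    have h1 : Real.log ((m : ℝ) + 1) - Real.log m ≤ 1 / m := by
      rw [← Real.log_div (by positivity) hm0.ne']
      have h2 := Real.log_le_sub_one_of_pos (show (0 : ℝ) < (m + 1) / m by positivity)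
      have h3 : ((m : ℝ) + 1) / m - 1 = 1 / m := by field_simp; ring
      linarith
    have h2 : 1 / ((m : ℝ) + 1) ≤ Real.log ((m : ℝ) + 1) - Real.log m := by
      have h4 := Real.log_le_sub_one_of_pos (show (0 : ℝ) < m / (m + 1) by positivity)
      rw [Real.log_div hm0.ne' (by positivity)] at h4
      have h3 : (m : ℝ) / (m + 1) - 1 = -(1 / ((m : ℝ) + 1)) := by field_simp; ring
      linarith
    have h5 : (m : ℝ) * (Real.log ((m : ℝ) + 1) - Real.log m) ≤ 1 := by
      calc (m : ℝ) * (Real.log ((m : ℝ) + 1) - Real.log m) ≤ m * (1 / m) :=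
            mul_le_mul_of_nonneg_left h1 hm0.le
        _ = 1 := by field_simp
    have h6 : 1 ≤ ((m : ℝ) + 1) * (Real.log ((m : ℝ) + 1) - Real.log m) := by
      calc (1 : ℝ) = ((m : ℝ) + 1) * (1 / ((m : ℝ) + 1)) := by field_simp
        _ ≤ _ := mul_le_mul_of_nonneg_left h2 (by positivity)
    rw [hf]
    push_cast
    constructor
    · nlinarith [ih.1]
    · nlinarith [ih.2]

/-- Stirling for the Gamma function at half integers, crude form -/
theorem log_Gamma_half : ∃ C : ℝ, 0 < C ∧ ∀ n : ℕ, 1 ≤ n →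
    |Real.log (Real.Gamma ((n : ℝ) / 2 + 1)) - ((n : ℝ) / 2 * Real.log ((n : ℝ) / 2) - (n : ℝ) / 2)|
      ≤ C * Real.log ((n : ℝ) + 1) := by
  have hl2 : (0.69 : ℝ) < Real.log 2 := by linarith [Real.log_two_gt_d9]
  set c1 : ℝ := |Real.log (Real.Gamma (((1 : ℕ) : ℝ) / 2 + 1)) -
    (((1 : ℕ) : ℝ) / 2 * Real.log (((1 : ℕ) : ℝ) / 2) - ((1 : ℕ) : ℝ) / 2)| with hc1
  have hc10 : 0 ≤ c1 := abs_nonneg _
  refine ⟨4 + c1 / Real.log 2, by positivity, ?_⟩
  intro n hn
  have hlog : Real.log 2 ≤ Real.log ((n : ℝ) + 1) := by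
    apply Real.log_le_log (by norm_num)
    have : (1 : ℝ) ≤ n := by exact_mod_cast hn
    linarith
  have hq : 0 ≤ c1 / Real.log 2 := by positivity
  rcases Nat.lt_or_ge n 2 with h2 | h2
  · have hn1 : n = 1 := by omega
    rw [hn1, ← hc1]
    rw [hn1] at hlog
    have h3 : c1 = c1 / Real.log 2 * Real.log 2 := by field_simp
    have h4 : c1 / Real.log 2 * Real.log 2 ≤ c1 / Real.log 2 * Real.log (((1 : ℕ) : ℝ) + 1) :=
      mul_le_mul_of_nonneg_left hlog hq
    nlinarith
  · set m := n / 2 with hm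
    set x : ℝ := (n : ℝ) / 2 with hx
    have hm1 : 1 ≤ m := by omega
    have hmR : (1 : ℝ) ≤ m := by exact_mod_cast hm1
    have hmx : (m : ℝ) ≤ x := by
      have : 2 * m ≤ n := by omega
      have h3 : (2 : ℝ) * m ≤ n := by exact_mod_cast this
      rw [hx]; linarith
    have hxm : x ≤ m + 1 := by
      have : n ≤ 2 * (m + 1) := by omega
      have h3 : (n : ℝ) ≤ 2 * (m + 1) := by exact_mod_cast this
      rw [hx]; linarith
    have hx0 : 0 < x := by linarith
    have hm0 : (0 : ℝ) < m := by linarith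
    -- Gamma bounds
    have hG1 : (m.factorial : ℝ) ≤ Real.Gamma (x + 1) := by
      rw [← Real.Gamma_nat_eq_factorial]
      exact Real.Gamma_strictMonoOn_Ici.monotoneOn (by simp only [Set.mem_Ici]; linarith)
        (by simp only [Set.mem_Ici]; linarith) (by linarith)
    have hG2 : Real.Gamma (x + 1) ≤ ((m + 1).factorial : ℝ) := by
      rw [← Real.Gamma_nat_eq_factorial]
      push_cast
      exact Real.Gamma_strictMonoOn_Ici.monotoneOn (by simp only [Set.mem_Ici]; linarith)
        (by simp only [Set.mem_Ici]; linarith) (by linarith)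
    have hfp : (0 : ℝ) < m.factorial := by exact_mod_cast Nat.factorial_pos m
    have hL1 := Real.log_le_log hfp hG1
    have hL2 := Real.log_le_log (lt_of_lt_of_le hfp hG1) hG2
    have hf : Real.log ((m + 1).factorial : ℝ) = Real.log ((m : ℝ) + 1) +
        Real.log (m.factorial : ℝ) := by
      rw [Nat.factorial_succ]
      push_cast
      rw [Real.log_mul (by positivity) (by positivity)]
    rw [hf] at hL2
    obtain ⟨hF1, hF2⟩ := lg_fact m hm1
    -- compare f(x) and f(m)
    have ha : Real.log x - Real.log m ≤ (x - m) / m := by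
      rw [← Real.log_div hx0.ne' hm0.ne']
      have h3 := Real.log_le_sub_one_of_pos (show (0 : ℝ) < x / m by positivity)
      have h4 : x / m - 1 = (x - m) / m := by field_simp
      linarith
    have hb : (x - m) / x ≤ Real.log x - Real.log m := by
      have h3 := Real.log_le_sub_one_of_pos (show (0 : ℝ) < m / x by positivity)
      rw [Real.log_div hm0.ne' hx0.ne'] at h3
      have h4 : (m : ℝ) / x - 1 = -((x - m) / x) := by field_simp; ring
      linarith
    have hlogx : 1 - 1 / x ≤ Real.log x := by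
      have h3 := Real.log_le_sub_one_of_pos (show (0 : ℝ) < 1 / x by positivity)
      rw [Real.log_div one_ne_zero hx0.ne', Real.log_one] at h3
      linarith
    have hma : (m : ℝ) * (Real.log x - Real.log m) ≤ x - m := by
      calc (m : ℝ) * (Real.log x - Real.log m) ≤ m * ((x - m) / m) :=
            mul_le_mul_of_nonneg_left ha hm0.le
        _ = x - m := by field_simp
    have hup : x * Real.log x - x ≤ (m : ℝ) * Real.log m - m + (x - m) * Real.log x := by
      nlinarith
    have hlx0 : 0 ≤ Real.log x := Real.log_nonneg (by linarith)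
    have hlxm : Real.log x ≤ Real.log ((m : ℝ) + 1) := Real.log_le_log hx0 hxm
    have hup2 : (x - m) * Real.log x ≤ Real.log ((m : ℝ) + 1) := by
      have : (x - m) * Real.log x ≤ 1 * Real.log x :=
        mul_le_mul_of_nonneg_right (by linarith) hlx0
      linarith
    have hlo : (m : ℝ) * Real.log m - m ≤ x * Real.log x - x := by
      have h3 : (x - m) * (Real.log x + m / x) ≥ (x - m) * 1 := by
        apply mul_le_mul_of_nonneg_left _ (by linarith)
        have h4 : 1 / x ≤ m / x := div_le_div_of_nonneg_right hmR hx0.le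
        linarith
      have h5 : (m : ℝ) * ((x - m) / x) ≤ m * (Real.log x - Real.log m) :=
        mul_le_mul_of_nonneg_left hb hm0.le
      have h6 : (m : ℝ) * ((x - m) / x) = (x - m) * (m / x) := by ring
      nlinarith
    have hmn : Real.log ((m : ℝ) + 1) ≤ Real.log ((n : ℝ) + 1) := by
      apply Real.log_le_log (by positivity)
      have : m ≤ n := by omega
      have h3 : (m : ℝ) ≤ n := by exact_mod_cast this
      linarith
    have hlm : Real.log m ≤ Real.log ((m : ℝ) + 1) := Real.log_le_log hm0 (by linarith)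
    have hN : 0 ≤ Real.log ((n : ℝ) + 1) := by linarith
    have hfin : 4 * Real.log ((n : ℝ) + 1) ≤
        (4 + c1 / Real.log 2) * Real.log ((n : ℝ) + 1) := by
      apply mul_le_mul_of_nonneg_right _ hN
      linarith
    refine le_trans ?_ hfin
    rw [abs_le]
    constructor <;> linarith


lemma V_eq (d : ℕ) [NeZero d] : V d = √Real.pi ^ d / Real.Gamma ((d : ℝ) / 2 + 1) := by
  have h := Pool.Agent.H818R2.vb_eq (EuclideanSpace ℝ (Fin d))
  rw [finrank_euclideanSpace_fin] at h
  exact h

lemma tendsto_log_div : Tendsto (fun n : ℕ => Real.log ((n : ℝ) + 1) / n) atTop (𝓝 0) := by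
  have h1 : Tendsto (fun x : ℝ => Real.log x / x) atTop (𝓝 0) := by
    have := Real.isLittleO_log_id_atTop.tendsto_div_nhds_zero
    exact this
  have h2 : Tendsto (fun n : ℕ => (n : ℝ) + 1) atTop atTop :=
    tendsto_atTop_add_const_right _ _ tendsto_natCast_atTop_atTop
  have h3 := h1.comp h2
  have h4 : Tendsto (fun n : ℕ => (((n : ℝ) + 1) / n)) atTop (𝓝 1) := by
    have : Tendsto (fun n : ℕ => 1 + 1 / (n : ℝ)) atTop (𝓝 (1 + 0)) :=
      tendsto_const_nhds.add (tendsto_const_nhds.div_atTop tendsto_natCast_atTop_atTop)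
    rw [add_zero] at this
    refine this.congr' ?_
    filter_upwards [eventually_gt_atTop 0] with n hn
    have : (n : ℝ) ≠ 0 := by exact_mod_cast hn.ne'
    field_simp
  have h5 := h3.mul h4
  rw [zero_mul] at h5
  refine h5.congr' ?_
  filter_upwards [eventually_gt_atTop 0] with n hn
  have : (n : ℝ) ≠ 0 := by exact_mod_cast hn.ne'
  simp only [Function.comp]
  have h6 : (n : ℝ) + 1 ≠ 0 := by positivity
  field_simp

/-- logarithmic form of the asymptotics of the volume of the unit ball -/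
lemma tendsto_log_V : Tendsto (fun d : ℕ => Real.log (V d) / d + Real.log d / 2) atTop
    (𝓝 (Real.log (2 * Real.pi * Real.exp 1) / 2)) := by
  obtain ⟨C, hC0, hC⟩ := log_Gamma_half
  rw [tendsto_iff_norm_sub_tendsto_zero]
  refine squeeze_zero' (Eventually.of_forall fun _ => norm_nonneg _) ?_
    (by simpa using tendsto_log_div.const_mul C)
  filter_upwards [eventually_gt_atTop 0] with d hd
  have : NeZero d := ⟨hd.ne'⟩
  have hd0 : (0 : ℝ) < d := by exact_mod_cast hd
  have hG : 0 < Real.Gamma ((d : ℝ) / 2 + 1) := Real.Gamma_pos_of_pos (by positivity)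
  have h1 := hC d hd
  have h2 : Real.log (V d) = d * (Real.log Real.pi / 2) - Real.log (Real.Gamma ((d : ℝ) / 2 + 1)) := by
    rw [V_eq, Real.log_div (by positivity) hG.ne', Real.log_pow, Real.log_sqrt Real.pi_pos.le]
  have h3 : Real.log (2 * Real.pi * Real.exp 1) = Real.log 2 + Real.log Real.pi + 1 := by
    rw [Real.log_mul (by positivity) (by positivity), Real.log_mul (by norm_num) Real.pi_pos.ne',
      Real.log_exp]
  have h4 : Real.log ((d : ℝ) / 2) = Real.log d - Real.log 2 := Real.log_div hd0.ne' two_ne_zero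
  have h5 : Real.log (V d) / d + Real.log d / 2 - Real.log (2 * Real.pi * Real.exp 1) / 2
      = -(Real.log (Real.Gamma ((d : ℝ) / 2 + 1)) -
          ((d : ℝ) / 2 * Real.log ((d : ℝ) / 2) - (d : ℝ) / 2)) / d := by
    rw [h2, h3, h4]
    field_simp
    ring
  rw [h5, Real.norm_eq_abs, abs_div, abs_neg, abs_of_pos hd0, mul_div_assoc']
  exact div_le_div_of_nonneg_right h1 hd0.le

/-- `V_d^{1/d} √d → √(2πe)` -/
lemma tendsto_V : Tendsto (fun d : ℕ => V d ^ ((1 : ℝ) / d) * √d) atTop
    (𝓝 (√(2 * Real.pi * Real.exp 1))) := by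
  have h1 : √(2 * Real.pi * Real.exp 1) = Real.exp (Real.log (2 * Real.pi * Real.exp 1) / 2) := by
    rw [← Real.log_sqrt (by positivity), Real.exp_log (by positivity)]
  rw [h1]
  refine ((Real.continuous_exp.tendsto _).comp tendsto_log_V).congr' ?_
  filter_upwards [eventually_gt_atTop 0] with d hd
  have hd0 : (0 : ℝ) < d := by exact_mod_cast hd
  have hV := V_pos d
  simp only [Function.comp]
  rw [Real.exp_add, Real.rpow_def_of_pos hV, ← Real.log_sqrt hd0.le, Real.exp_log (by positivity),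
    mul_one_div]

/-- the constant `2/√(2πe)` -/
noncomputable def G : ℝ := 2 / √(2 * Real.pi * Real.exp 1)

lemma G_pos : 0 < G := by unfold G; positivity

/-- `θ_d^{1/d}` -/
noncomputable def tt (d : ℕ) : ℝ := theta d ^ ((1 : ℝ) / d)

lemma tt_le_one (d : ℕ) : tt d ≤ 1 :=
  Real.rpow_le_one (Pool.Agent.H818R2.rho_nonneg d) (Pool.Agent.H818R2.rho_le_one d) (by positivity)

lemma le_tt {d : ℕ} (hd : 0 < d) : 1 / 2 ≤ tt d := by
  have h := Pool.Agent.H818R2.le_rho hd
  have hd0 : (d : ℝ) ≠ 0 := by exact_mod_cast hd.ne'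
  calc (1 / 2 : ℝ) = ((1 / 2 : ℝ) ^ d) ^ ((1 : ℝ) / d) := by
        rw [← Real.rpow_natCast, ← Real.rpow_mul (by norm_num), mul_one_div_cancel hd0,
          Real.rpow_one]
    _ ≤ tt d := Real.rpow_le_rpow (by positivity) h (by positivity)

lemma tt_nonneg (d : ℕ) : 0 ≤ tt d := Real.rpow_nonneg (Pool.Agent.H818R2.rho_nonneg d) _

lemma two_div_kap {d : ℕ} (hd : 0 < d) : 2 / kap d = 2 * (theta d / V d) ^ ((1 : ℝ) / d) := by
  have : NeZero d := ⟨hd.ne'⟩
  unfold kap
  rw [Real.div_rpow (V_pos d).le (theta_pos).le, Real.div_rpow (theta_pos).le (V_pos d).le]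
  have h1 := (Real.rpow_pos_of_pos (V_pos d) ((1 : ℝ) / d)).ne'
  have h2 := (Real.rpow_pos_of_pos (theta_pos (d := d)) ((1 : ℝ) / d)).ne'
  field_simp

lemma two_div_kap' {d : ℕ} (hd : 0 < d) :
    2 / kap d / √d = 2 / (V d ^ ((1 : ℝ) / d) * √d) * tt d := by
  have : NeZero d := ⟨hd.ne'⟩
  have hd0 : (0 : ℝ) < d := by exact_mod_cast hd
  rw [two_div_kap hd, Real.div_rpow (theta_pos).le (V_pos d).le, tt]
  have h1 := (Real.rpow_pos_of_pos (V_pos d) ((1 : ℝ) / d)).ne'
  have h2 := (Real.sqrt_pos.2 hd0).ne'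
  field_simp

theorem tendsto_ratio : Tendsto (fun d : ℕ => alpha' d / tt d) atTop (𝓝 G) := by
  have hg : Tendsto (fun d : ℕ => 2 / (V d ^ ((1 : ℝ) / d) * √d)) atTop (𝓝 G) :=
    tendsto_const_nhds.div tendsto_V (by positivity)
  have hq : Tendsto (fun d : ℕ => (d : ℝ) / (d - 1)) atTop (𝓝 1) := by
    have : Tendsto (fun n : ℕ => 1 + 1 / ((n : ℝ) - 1)) atTop (𝓝 (1 + 0)) :=
      tendsto_const_nhds.add (tendsto_const_nhds.div_atTop
        (tendsto_atTop_add_const_right _ _ tendsto_natCast_atTop_atTop))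
    rw [add_zero] at this
    refine this.congr' ?_
    filter_upwards [eventually_ge_atTop 2] with n hn
    have h2 : (2 : ℝ) ≤ n := by exact_mod_cast hn
    have : (n : ℝ) - 1 ≠ 0 := by linarith
    field_simp
    ring
  have hup := hq.mul hg
  rw [one_mul] at hup
  refine tendsto_of_tendsto_of_tendsto_of_le_of_le' hg hup ?_ ?_
  · filter_upwards [eventually_ge_atTop 2] with d hd
    have : NeZero d := ⟨by omega⟩
    have hd0 : (2 : ℝ) ≤ d := by exact_mod_cast hd
    have ht : 0 < tt d := lt_of_lt_of_le (by norm_num) (le_tt (by omega : 0 < d))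
    have hs : 0 < √(d : ℝ) := Real.sqrt_pos.2 (by linarith)
    rw [le_div_iff₀ ht, ← two_div_kap' (by omega : 0 < d)]
    exact div_le_div_of_nonneg_right (le_alpha hd) hs.le
  · filter_upwards [eventually_ge_atTop 2] with d hd
    have : NeZero d := ⟨by omega⟩
    have hd0 : (2 : ℝ) ≤ d := by exact_mod_cast hd
    have ht : 0 < tt d := lt_of_lt_of_le (by norm_num) (le_tt (by omega : 0 < d))
    have hs : 0 < √(d : ℝ) := Real.sqrt_pos.2 (by linarith)
    rw [div_le_iff₀ ht, mul_assoc, ← two_div_kap' (by omega : 0 < d), ← mul_div_assoc]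
    exact div_le_div_of_nonneg_right (alpha_le hd) hs.le

theorem tendsto_diff : Tendsto (fun d : ℕ => alpha' d - G * tt d) atTop (𝓝 0) := by
  have h1 : Tendsto (fun d : ℕ => |alpha' d / tt d - G|) atTop (𝓝 0) := by
    have := (tendsto_ratio.sub_const G).abs
    simpa using this
  rw [tendsto_zero_iff_abs_tendsto_zero]
  refine squeeze_zero' (Eventually.of_forall fun _ => abs_nonneg _) ?_ h1
  filter_upwards [eventually_gt_atTop 0] with d hd
  have ht : 0 < tt d := lt_of_lt_of_le (by norm_num) (le_tt hd)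
  have h2 : alpha' d - G * tt d = (alpha' d / tt d - G) * tt d := by field_simp
  simp only [Function.comp]
  rw [h2, abs_mul, abs_of_pos ht]
  calc |alpha' d / tt d - G| * tt d ≤ |alpha' d / tt d - G| * 1 :=
        mul_le_mul_of_nonneg_left (tt_le_one d) (abs_nonneg _)
    _ = _ := mul_one _

lemma bdd_add {v : ℕ → ℝ} {ε : ℝ} (hva : IsBoundedUnder (· ≤ ·) atTop v) :
    IsBoundedUnder (· ≤ ·) atTop (fun i => v i + ε) := by
  obtain ⟨b, hb⟩ := hva
  refine ⟨b + ε, ?_⟩
  rw [eventually_map] at hb ⊢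
  filter_upwards [hb] with n hn
  linarith

/-- two bounded sequences with difference tending to zero have the same `limsup` and `liminf` -/
lemma limsup_le_of_diff {u v : ℕ → ℝ} (h : Tendsto (fun n => u n - v n) atTop (𝓝 0))
    (hub : IsBoundedUnder (· ≥ ·) atTop u)
    (hva : IsBoundedUnder (· ≤ ·) atTop v) (hvb : IsBoundedUnder (· ≥ ·) atTop v) :
    limsup u atTop ≤ limsup v atTop := by
  apply le_of_forall_pos_le_add
  intro ε hε
  rw [← limsup_add_const atTop v ε hva hvb.isCoboundedUnder_le]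
  refine limsup_le_limsup ?_ hub.isCoboundedUnder_le (bdd_add hva)
  filter_upwards [h.eventually_lt_const hε] with n hn
  linarith

lemma liminf_le_of_diff {u v : ℕ → ℝ} (h : Tendsto (fun n => u n - v n) atTop (𝓝 0))
    (hub : IsBoundedUnder (· ≥ ·) atTop u)
    (hva : IsBoundedUnder (· ≤ ·) atTop v) (hvb : IsBoundedUnder (· ≥ ·) atTop v) :
    liminf u atTop ≤ liminf v atTop := by
  apply le_of_forall_pos_le_add
  intro ε hε
  rw [← liminf_add_const atTop v ε hva.isCoboundedUnder_ge hvb]
  refine liminf_le_liminf ?_ hub (bdd_add hva).isCoboundedUnder_ge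
  filter_upwards [h.eventually_lt_const hε] with n hn
  linarith

lemma tt_bdd : IsBoundedUnder (· ≤ ·) atTop tt := isBoundedUnder_of ⟨1, tt_le_one⟩
lemma tt_bdd' : IsBoundedUnder (· ≥ ·) atTop tt := isBoundedUnder_of ⟨0, tt_nonneg⟩

lemma Gtt_bdd : IsBoundedUnder (· ≤ ·) atTop (fun d => G * tt d) :=
  isBoundedUnder_of ⟨G, fun d => by nlinarith [G_pos, tt_le_one d]⟩
lemma Gtt_bdd' : IsBoundedUnder (· ≥ ·) atTop (fun d => G * tt d) :=
  isBoundedUnder_of ⟨0, fun d => mul_nonneg G_pos.le (tt_nonneg d)⟩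

lemma alpha_bdd : IsBoundedUnder (· ≤ ·) atTop alpha' := by
  refine ⟨1 + G, ?_⟩
  rw [eventually_map]
  filter_upwards [tendsto_diff.eventually_lt_const one_pos] with n hn
  have h2 : G * tt n ≤ G * 1 := mul_le_mul_of_nonneg_left (tt_le_one n) G_pos.le
  linarith

lemma alpha_bdd' : IsBoundedUnder (· ≥ ·) atTop alpha' := by
  refine ⟨-1, ?_⟩
  rw [eventually_map]
  filter_upwards [tendsto_diff.eventually_const_lt (show (-1 : ℝ) < 0 by norm_num)] with n hn
  have h2 : 0 ≤ G * tt n := mul_nonneg G_pos.le (tt_nonneg n)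
  show -1 ≤ alpha' n
  linarith

lemma diff' : Tendsto (fun d : ℕ => G * tt d - alpha' d) atTop (𝓝 0) := by
  have := tendsto_diff.neg
  simpa using this

lemma G_mono : Monotone (fun x : ℝ => G * x) := fun _ _ h => mul_le_mul_of_nonneg_left h G_pos.le

theorem limsup_alpha : limsup alpha' atTop = G * limsup tt atTop := by
  have h1 : G * limsup tt atTop = limsup (fun d => G * tt d) atTop :=
    G_mono.map_limsup_of_continuousAt tt (continuous_const_mul G).continuousAt tt_bdd
      tt_bdd'.isCoboundedUnder_le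
  rw [h1]
  exact le_antisymm (limsup_le_of_diff tendsto_diff alpha_bdd' Gtt_bdd Gtt_bdd')
    (limsup_le_of_diff diff' Gtt_bdd' alpha_bdd alpha_bdd')

theorem liminf_alpha : liminf alpha' atTop = G * liminf tt atTop := by
  have h1 : G * liminf tt atTop = liminf (fun d => G * tt d) atTop :=
    G_mono.map_liminf_of_continuousAt tt (continuous_const_mul G).continuousAt
      tt_bdd.isCoboundedUnder_ge tt_bdd'
  rw [h1]
  exact le_antisymm (liminf_le_of_diff tendsto_diff alpha_bdd' Gtt_bdd Gtt_bdd')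
    (liminf_le_of_diff diff' Gtt_bdd' alpha_bdd alpha_bdd')

end Pool.Agent.H519R2.TSP
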