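import Pool.Agent.H519R2.TSP.Path
import Pool.Agent.H818R2.Defs

/-! Definitions of MP_3f7b2e_co: the worst-case Euclidean TSP constant. -/

open Filter

namespace Pool.Agent.H519R2.TSP

/-- `l` is a tour of `S`: it lists every point of `S` exactly once (the tour is the closed path
through the points of `l` in this order, of length `closedLength l`). -/
def IsTour {d : ℕ} (S : Finset (EuclideanSpace ℝ (Fin d))) (l : List (EuclideanSpace ℝ (Fin d))) :
    Prop := l.Nodup ∧ ∀ x, x ∈ l ↔ x ∈ S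

/-- `T(S)`, the minimum length of a tour of `S` -/
noncomputable def T {d : ℕ} (S : Finset (EuclideanSpace ℝ (Fin d))) : ℝ :=
  sInf {t | ∃ l, IsTour S l ∧ closedLength l = t}

/-- `L_d(n)`, the supremum of `T(S)` over all `n`-point subsets `S` of the cube `[0,1]^d` -/
noncomputable def L (d n : ℕ) : ℝ :=
  sSup {t | ∃ S : Finset (EuclideanSpace ℝ (Fin d)),
    (∀ x ∈ S, ∀ i, 0 ≤ x i ∧ x i ≤ 1) ∧ S.card = n ∧ T S = t}

/-- `α_d = limsup L_d(n) / n^{(d-1)/d}` -/
noncomputable def alpha (d : ℕ) : ℝ :=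
  limsup (fun n : ℕ => L d n / (n : ℝ) ^ (((d : ℝ) - 1) / d)) atTop

/-- `α'_d = α_d / √d` -/
noncomputable def alpha' (d : ℕ) : ℝ := alpha d / √d

/-- `V_d`, the volume of the unit ball of `ℝ^d` -/
noncomputable def ballVol (d : ℕ) : ℝ :=
  MeasureTheory.volume.real (Metric.ball (0 : EuclideanSpace ℝ (Fin d)) 1)

/-- `θ_d`, the maximal density of a packing of equal balls in `ℝ^d` -/
noncomputable abbrev theta (d : ℕ) : ℝ := Pool.Agent.H818R2.rho d

end Pool.Agent.H519R2.TSP
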