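import Pool.Agent.H818R2.Rate

/-! Packings in cubes versus the optimal sphere packing density (MP_3f7b2e_co). -/

open MeasureTheory Metric Filter Set Pool.Agent.H818R2
open scoped Topology

namespace Pool.Agent.H519R2.TSP

/-- the cube `[0, L]^d` -/
def Cb (d : ℕ) (L : ℝ) : Set (EuclideanSpace ℝ (Fin d)) := {x | ∀ i, 0 ≤ x i ∧ x i ≤ L}

theorem volume_cube (n : ℕ) (a b : ℝ) (hab : a ≤ b) :
    volume {x : EuclideanSpace ℝ (Fin n) | ∀ i, a ≤ x i ∧ x i ≤ b} = ENNReal.ofReal ((b - a) ^ n) ∧
    MeasurableSet {x : EuclideanSpace ℝ (Fin n) | ∀ i, a ≤ x i ∧ x i ≤ b} := by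
  have hS : MeasurableSet (Set.pi Set.univ (fun _ : Fin n => Set.Icc a b)) :=
    MeasurableSet.univ_pi (fun _ => measurableSet_Icc)
  have he : {x : EuclideanSpace ℝ (Fin n) | ∀ i, a ≤ x i ∧ x i ≤ b} =
      (@WithLp.ofLp 2 (Fin n → ℝ)) ⁻¹' (Set.pi Set.univ (fun _ : Fin n => Set.Icc a b)) := by
    ext x
    simp only [Set.mem_ofPred_eq, Set.mem_preimage, Set.mem_pi, Set.mem_univ, true_imp_iff, Set.mem_Icc]
  have hp := PiLp.volume_preserving_ofLp (Fin n)
  rw [he]
  constructor
  · rw [hp.measure_preimage hS.nullMeasurableSet, volume_pi_pi]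
    simp only [Real.volume_Icc, Finset.prod_const, Finset.card_univ, Fintype.card_fin]
    rw [ENNReal.ofReal_pow (sub_nonneg.2 hab)]
  · exact hp.measurable hS

lemma abs_coord_le {d : ℕ} (x : EuclideanSpace ℝ (Fin d)) (i : Fin d) : |x i| ≤ ‖x‖ := by
  have := PiLp.norm_apply_le x i
  simpa using this

lemma norm_le_of_coord {d : ℕ} (x : EuclideanSpace ℝ (Fin d)) {c : ℝ} (hc : 0 ≤ c)
    (h : ∀ i, |x i| ≤ c) : ‖x‖ ≤ √d * c := by
  rw [EuclideanSpace.norm_eq]
  have h1 : ∑ i, ‖x i‖ ^ 2 ≤ d * c ^ 2 := by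
    calc ∑ i, ‖x i‖ ^ 2 ≤ ∑ _i : Fin d, c ^ 2 := by
          apply Finset.sum_le_sum
          intro i _
          rw [Real.norm_eq_abs]
          exact pow_le_pow_left₀ (abs_nonneg _) (h i) 2
      _ = d * c ^ 2 := by simp
  calc √(∑ i, ‖x i‖ ^ 2) ≤ √(d * c ^ 2) := Real.sqrt_le_sqrt h1
    _ = √d * c := by rw [Real.sqrt_mul (by positivity), Real.sqrt_sq hc]

lemma Cb_vol {d : ℕ} {L : ℝ} (hL : 0 ≤ L) : volume.real (Cb d L) = L ^ d := by
  have h := (volume_cube d 0 L hL).1
  unfold Cb
  rw [measureReal_def, h, sub_zero, ENNReal.toReal_ofReal (by positivity)]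

lemma Cb_meas {d : ℕ} {L : ℝ} (hL : 0 ≤ L) : MeasurableSet (Cb d L) := (volume_cube d 0 L hL).2

lemma Cb_sub {d : ℕ} {L : ℝ} (hL : 0 ≤ L) : Cb d L ⊆ closedBall 0 (√d * L) := by
  intro x hx
  rw [mem_closedBall_zero_iff]
  apply norm_le_of_coord x hL
  intro i
  rw [abs_le]
  exact ⟨by linarith [(hx i).1], (hx i).2⟩

/-- volume of the unit ball of `ℝ^d` -/
noncomputable abbrev V (d : ℕ) : ℝ := vb (EuclideanSpace ℝ (Fin d))

/-- large separated sets in cubes -/
lemma exists_cube (d : ℕ) {L : ℝ} (hL : 0 < L) :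
    ∃ P : Finset (EuclideanSpace ℝ (Fin d)), Sep 2 P ∧ (P : Set (EuclideanSpace ℝ (Fin d))) ⊆ Cb d L ∧
      rho d * L ^ d ≤ P.card * V d := by
  have h := exists_large (E := EuclideanSpace ℝ (Fin d)) (Cb_meas hL.le) (a := √d * L)
    (by positivity) (Cb_sub hL.le) (by rw [Cb_vol hL.le]; positivity)
  rw [Cb_vol hL.le] at h
  exact h

/-- integer points as points of Euclidean space, scaled -/
noncomputable def pt {d : ℕ} (s : ℝ) (k : Fin d → ℤ) : EuclideanSpace ℝ (Fin d) :=
  WithLp.toLp 2 (fun i => s * (k i : ℝ))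

lemma pt_apply {d : ℕ} (s : ℝ) (k : Fin d → ℤ) (i : Fin d) : pt s k i = s * k i := rfl

/-- separated sets in cubes are controlled by the packing density -/
lemma card_cube_le {d : ℕ} [NeZero d] {L : ℝ} (hL : 0 ≤ L)
    {P : Finset (EuclideanSpace ℝ (Fin d))} (hP : Sep 2 P)
    (hPL : (P : Set (EuclideanSpace ℝ (Fin d))) ⊆ Cb d L) :
    P.card * V d ≤ rho d * (L + 2) ^ d := by
  classical
  set s : ℝ := L + 2 with hs
  have hs0 : 0 < s := by linarith
  have hV : 0 < V d := vb_pos
  suffices h : P.card * V d / s ^ d ≤ rho d by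
    rwa [div_le_iff₀ (by positivity)] at h
  apply le_of_forall_lt
  intro c hc
  obtain ⟨a, hca, ha⟩ := exists_between hc
  refine lt_of_lt_of_le hca ?_
  set D : ℝ := √d * L + √d * s + 1 with hD
  have hD0 : 0 < D := by positivity
  -- eventually `a R^d ≤ c0 (R - D)^d`
  have hlim : Tendsto (fun R : ℝ => P.card * V d / s ^ d * ((R - D) / R) ^ d) atTop
      (𝓝 (P.card * V d / s ^ d * 1 ^ d)) := by
    apply Tendsto.const_mul
    apply Tendsto.pow
    have : Tendsto (fun R : ℝ => 1 - D / R) atTop (𝓝 (1 - 0)) :=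
      tendsto_const_nhds.sub (tendsto_const_nhds.div_atTop tendsto_id)
    rw [sub_zero] at this
    refine this.congr' ?_
    filter_upwards [eventually_gt_atTop 0] with R hR
    field_simp
  rw [one_pow, mul_one] at hlim
  obtain ⟨R0, hR0⟩ := Filter.eventually_atTop.1 (hlim.eventually (lt_mem_nhds ha))
  apply glue (E := EuclideanSpace ℝ (Fin d)) (R0 := max R0 D)
  intro R hR
  have hR1 : R0 ≤ R := (le_max_left _ _).trans hR
  have hR2 : D ≤ R := (le_max_right _ _).trans hR
  have hRpos : 0 < R := by linarith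
  have hkey := hR0 R hR1
  -- the finite set of cells
  set M : ℤ := ⌈R / s⌉ with hM
  set B : Finset (Fin d → ℤ) := Fintype.piFinset (fun _ => Finset.Icc (-M) M) with hB
  set F : Finset (Fin d → ℤ) := B.filter (fun k => ‖pt s k‖ ≤ R - √d * L) with hF
  set Q : Finset (EuclideanSpace ℝ (Fin d)) := (F ×ˢ P).image (fun p => p.2 + pt s p.1) with hQ
  have hsepQ : ∀ k k' : Fin d → ℤ, ∀ x ∈ P, ∀ y ∈ P, k ≠ k' →
      2 ≤ dist (x + pt s k) (y + pt s k') := by
    intro k k' x hx y hy hkk
    obtain ⟨i, hi⟩ := Function.ne_iff.1 hkk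
    have h1 : |(x + pt s k) i - (y + pt s k') i| ≤ dist (x + pt s k) (y + pt s k') := by
      rw [dist_eq_norm]
      exact abs_coord_le ((x + pt s k) - (y + pt s k')) i
    refine le_trans ?_ h1
    have hx' := hPL hx i
    have hy' := hPL hy i
    have h2 : (x + pt s k) i - (y + pt s k') i = (x i - y i) + s * ((k i : ℝ) - k' i) := by
      simp only [PiLp.add_apply, pt_apply]; ring
    rw [h2]
    have hint : (1 : ℝ) ≤ |(k i : ℝ) - k' i| := by
      have : (1 : ℤ) ≤ |k i - k' i| := Int.one_le_abs (sub_ne_zero.2 hi)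
      exact_mod_cast this
    have h3 : s ≤ |s * ((k i : ℝ) - k' i)| := by
      rw [abs_mul, abs_of_pos hs0]
      nlinarith
    have h4 : |x i - y i| ≤ L := by
      rw [abs_le]; constructor <;> linarith [hx'.1, hx'.2, hy'.1, hy'.2]
    have h5 : |s * ((k i : ℝ) - k' i)| ≤ |(x i - y i) + s * ((k i : ℝ) - k' i)| + |x i - y i| := by
      have := abs_sub_abs_le_abs_sub (s * ((k i : ℝ) - k' i)) (-(x i - y i))
      rw [abs_neg, sub_neg_eq_add, add_comm (s * _)] at this
      linarith
    linarith
  have hinj : Set.InjOn (fun p : (Fin d → ℤ) × EuclideanSpace ℝ (Fin d) => p.2 + pt s p.1)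
      ((F ×ˢ P : Finset _) : Set _) := by
    rintro ⟨k, x⟩ hk ⟨k', y⟩ hk' heq
    simp only [Finset.coe_product, Set.mem_prod, Finset.mem_coe] at hk hk'
    simp only at heq
    by_cases hkk : k = k'
    · subst hkk
      have := add_right_cancel heq
      rw [this]
    · have := hsepQ k k' x hk.2 y hk'.2 hkk
      rw [heq, dist_self] at this
      linarith
  have hQcard : Q.card = F.card * P.card := by
    rw [hQ, Finset.card_image_of_injOn hinj, Finset.card_product]
  refine ⟨Q, ?_, ?_, ?_⟩
  · intro x hx y hy hxy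
    simp only [hQ, Finset.mem_image, Finset.mem_product] at hx hy
    obtain ⟨⟨k, x'⟩, ⟨hk, hx'⟩, rfl⟩ := hx
    obtain ⟨⟨k', y'⟩, ⟨hk', hy'⟩, rfl⟩ := hy
    by_cases hkk : k = k'
    · subst hkk
      simp only at hxy ⊢
      rw [dist_add_right]
      apply hP x' hx' y' hy'
      rintro rfl
      exact hxy rfl
    · exact hsepQ k k' x' hx' y' hy' hkk
  · intro x hx
    simp only [hQ, Finset.mem_image, Finset.mem_product] at hx
    obtain ⟨⟨k, x'⟩, ⟨hk, hx'⟩, rfl⟩ := hx
    have h1 := (Finset.mem_filter.1 hk).2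
    have h2 := mem_closedBall_zero_iff.1 (Cb_sub hL (hPL hx'))
    simp only
    exact (norm_add_le _ _).trans (by linarith)
  · rw [hQcard, finrank_euclideanSpace_fin]
    -- volume count
    have hcover : ball (0 : EuclideanSpace ℝ (Fin d)) (R - D) ⊆
        ⋃ k ∈ F, (fun x => x + pt s k) '' Cb d s := by
      intro y hy
      rw [mem_ball_zero_iff] at hy
      set k : Fin d → ℤ := fun i => ⌊y i / s⌋ with hk
      have hfl : ∀ i, 0 ≤ y i - s * k i ∧ y i - s * k i ≤ s := by
        intro i
        have h1 : (k i : ℝ) ≤ y i / s := Int.floor_le _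
        have h2 : y i / s < k i + 1 := Int.lt_floor_add_one _
        rw [le_div_iff₀ hs0] at h1
        rw [div_lt_iff₀ hs0] at h2
        constructor <;> nlinarith
      have hnorm : ‖pt s k‖ ≤ R - √d * L := by
        have h1 : ‖y - pt s k‖ ≤ √d * s := by
          apply norm_le_of_coord _ hs0.le
          intro i
          rw [PiLp.sub_apply, pt_apply, abs_le]
          exact ⟨by linarith [(hfl i).1], (hfl i).2⟩
        have h2 : ‖pt s k‖ ≤ ‖y‖ + ‖y - pt s k‖ := by
          have := norm_sub_le y (y - pt s k)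
          rwa [sub_sub_cancel] at this
        have : 0 ≤ √(d : ℝ) * L := by positivity
        linarith
      have hkF : k ∈ F := by
        rw [hF, Finset.mem_filter]
        refine ⟨?_, hnorm⟩
        rw [hB, Fintype.mem_piFinset]
        intro i
        rw [Finset.mem_Icc]
        have h1 : |pt s k i| ≤ R := (abs_coord_le _ i).trans (hnorm.trans (by
          have : 0 ≤ √(d : ℝ) * L := by positivity
          linarith))
        rw [pt_apply, abs_le] at h1
        have h2 : (k i : ℝ) ≤ R / s := by rw [le_div_iff₀ hs0]; linarith [h1.2]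
        have h3 : -(R / s) ≤ (k i : ℝ) := by
          rw [← neg_div, div_le_iff₀ hs0]; linarith [h1.1]
        have h4 : (R / s : ℝ) ≤ M := Int.le_ceil _
        constructor
        · have : (-(M : ℝ)) ≤ k i := by linarith
          exact_mod_cast this
        · have : (k i : ℝ) ≤ M := by linarith
          exact_mod_cast this
      simp only [mem_iUnion]
      refine ⟨k, hkF, y - pt s k, ?_, by simp⟩
      intro i
      rw [PiLp.sub_apply, pt_apply]
      exact hfl i
    have hRD : 0 ≤ R - D := by linarith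
    have hvol : (R - D) ^ d * V d ≤ F.card * s ^ d := by
      have h1 : volume.real (closedBall (0 : EuclideanSpace ℝ (Fin d)) (R - D)) ≤ F.card * s ^ d := by
        have hb : volume.real (closedBall (0 : EuclideanSpace ℝ (Fin d)) (R - D)) =
            volume.real (ball (0 : EuclideanSpace ℝ (Fin d)) (R - D)) := by
          rw [measureReal_def, measureReal_def, Measure.addHaar_closedBall_eq_addHaar_ball]
        rw [hb]
        have hfin : volume (⋃ k ∈ F, (fun x => x + pt s k) '' Cb d s) ≠ ⊤ := by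
          refine ((measure_biUnion_lt_top (Finset.finite_toSet F) ?_)).ne
          intro k _
          rw [Set.image_add_right, measure_preimage_add_right]
          unfold Cb
          rw [(volume_cube d 0 s hs0.le).1]
          exact ENNReal.ofReal_lt_top
        calc volume.real (ball (0 : EuclideanSpace ℝ (Fin d)) (R - D))
            ≤ volume.real (⋃ k ∈ F, (fun x => x + pt s k) '' Cb d s) :=
              measureReal_mono hcover hfin
          _ ≤ ∑ k ∈ F, volume.real ((fun x => x + pt s k) '' Cb d s) :=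
              measureReal_biUnion_finset_le _ _
          _ = ∑ k ∈ F, s ^ d := by
              apply Finset.sum_congr rfl
              intro k _
              rw [Set.image_add_right, measureReal_def, measure_preimage_add_right,
                ← measureReal_def, Cb_vol hs0.le]
          _ = F.card * s ^ d := by rw [Finset.sum_const, nsmul_eq_mul]
      rw [vol_closedBall 0 hRD, finrank_euclideanSpace_fin] at h1
      exact h1
    have hVs : (0 : ℝ) < s ^ d := by positivity
    have h6 : a * R ^ d ≤ P.card * V d / s ^ d * (R - D) ^ d := by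
      have := hkey.le
      rw [div_pow] at this
      have hRd : (0 : ℝ) < R ^ d := by positivity
      calc a * R ^ d ≤ (P.card * V d / s ^ d * ((R - D) ^ d / R ^ d)) * R ^ d :=
            mul_le_mul_of_nonneg_right this hRd.le
        _ = _ := by field_simp
    push_cast
    calc a * R ^ d ≤ P.card * V d / s ^ d * (R - D) ^ d := h6
      _ = P.card / s ^ d * ((R - D) ^ d * V d) := by ring
      _ ≤ P.card / s ^ d * (F.card * s ^ d) := mul_le_mul_of_nonneg_left hvol (by positivity)
      _ = F.card * P.card := by field_simp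

end Pool.Agent.H519R2.TSP
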