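import Pool.Agent.H519R2.TSP.Defs
import Pool.Agent.H519R2.TSP.Pack

/-! Fixed dimension: `2 (θ_d/V_d)^{1/d} ≤ α_d ≤ d/(d-1) * 2 (θ_d/V_d)^{1/d}` (MP_3f7b2e_co). -/

open MeasureTheory Metric Filter Set Pool.Agent.H818R2
open scoped Topology

namespace Pool.Agent.H519R2.TSP

variable {d : ℕ}

lemma ballVol_eq (d : ℕ) : ballVol d = V d := rfl

lemma V_pos (d : ℕ) : 0 < V d := vb_pos

lemma theta_pos [NeZero d] : 0 < theta d := rho_pos (Nat.pos_of_ne_zero (NeZero.ne d))

/-- `κ = (V_d/θ_d)^{1/d}` -/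
noncomputable def kap (d : ℕ) : ℝ := (V d / theta d) ^ ((1 : ℝ) / d)

lemma kap_pos [NeZero d] : 0 < kap d := Real.rpow_pos_of_pos (div_pos (V_pos d) theta_pos) _

lemma kap_pow [NeZero d] : kap d ^ d = V d / theta d := by
  unfold kap
  rw [← Real.rpow_natCast, ← Real.rpow_mul (div_pos (V_pos d) theta_pos).le, one_div,
    inv_mul_cancel₀ (by exact_mod_cast NeZero.ne d), Real.rpow_one]

lemma dist_le_sqrt {x y : EuclideanSpace ℝ (Fin d)} (hx : x ∈ Cb d 1) (hy : y ∈ Cb d 1) :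
    dist x y ≤ √d := by
  rw [dist_eq_norm]
  have := norm_le_of_coord (x - y) zero_le_one (fun i => by
    rw [PiLp.sub_apply, abs_le]
    constructor <;> linarith [(hx i).1, (hx i).2, (hy i).1, (hy i).2])
  rwa [mul_one] at this

/-- scaling -/
lemma sep_smul {Q : Finset (EuclideanSpace ℝ (Fin d))} {δ c : ℝ} (hc : 0 < c)
    (h : Sep δ Q) (F : Finset (EuclideanSpace ℝ (Fin d)))
    (hF : ∀ x, x ∈ F ↔ ∃ y ∈ Q, c • y = x) : Sep (c * δ) F := by
  intro x hx y hy hxy
  obtain ⟨x', hx', rfl⟩ := (hF x).1 hx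
  obtain ⟨y', hy', rfl⟩ := (hF y).1 hy
  rw [dist_smul₀, Real.norm_eq_abs, abs_of_pos hc]
  apply mul_le_mul_of_nonneg_left _ hc.le
  apply h x' hx' y' hy'
  rintro rfl
  exact hxy rfl

/-- among many points of the unit cube two are close -/
lemma two_close [NeZero d] {r : ℝ} (hr : 0 < r) {Q : Finset (EuclideanSpace ℝ (Fin d))}
    (hQ : (Q : Set (EuclideanSpace ℝ (Fin d))) ⊆ Cb d 1) (h2 : 2 ≤ Q.card)
    (hr2 : theta d * (2 / r + 2) ^ d ≤ Q.card * V d) :
    ∃ x ∈ Q, ∃ y ∈ Q, x ≠ y ∧ dist x y ≤ r := by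
  classical
  by_contra hcon
  push Not at hcon
  -- minimal distance
  set D : Finset (EuclideanSpace ℝ (Fin d) × EuclideanSpace ℝ (Fin d)) :=
    (Q ×ˢ Q).filter (fun p => p.1 ≠ p.2) with hD
  have hDne : D.Nonempty := by
    obtain ⟨x, hx, y, hy, hxy⟩ := Finset.one_lt_card.1 (by omega : 1 < Q.card)
    exact ⟨(x, y), by simp [hD, hx, hy, hxy]⟩
  obtain ⟨p, hp, hmin⟩ := Finset.exists_min_image D (fun p => dist p.1 p.2) hDne
  simp only [hD, Finset.mem_filter, Finset.mem_product] at hp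
  set δ := dist p.1 p.2 with hδ
  have hrδ : r < δ := hcon p.1 hp.1.1 p.2 hp.1.2 hp.2
  have hδ0 : 0 < δ := hr.trans hrδ
  have hsep : Sep δ Q := by
    intro x hx y hy hxy
    exact hmin (x, y) (by simp [hD, hx, hy, hxy])
  set c : ℝ := 2 / δ with hc
  have hc0 : 0 < c := by positivity
  set F := Q.image (fun x => c • x) with hF
  have hFs : Sep 2 F := by
    have := sep_smul hc0 hsep F (by intro x; simp [hF])
    rwa [hc, div_mul_cancel₀ _ hδ0.ne'] at this
  have hFc : F.card = Q.card := by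
    apply Finset.card_image_of_injective
    intro x y hxy
    exact smul_right_injective _ hc0.ne' hxy
  have hFC : (F : Set (EuclideanSpace ℝ (Fin d))) ⊆ Cb d c := by
    intro x hx
    simp only [hF, Finset.coe_image, Set.mem_image] at hx
    obtain ⟨y, hy, rfl⟩ := hx
    intro i
    have := hQ hy i
    rw [PiLp.smul_apply, smul_eq_mul]
    constructor
    · exact mul_nonneg hc0.le this.1
    · calc c * y i ≤ c * 1 := mul_le_mul_of_nonneg_left this.2 hc0.le
        _ = c := mul_one c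
  have h1 := card_cube_le hc0.le hFs hFC
  rw [hFc] at h1
  have h3 : c + 2 < 2 / r + 2 := by
    have : 2 / δ < 2 / r := div_lt_div_of_pos_left two_pos hr hrδ
    linarith
  have h4 : theta d * (c + 2) ^ d < theta d * (2 / r + 2) ^ d := by
    apply mul_lt_mul_of_pos_left _ theta_pos
    exact pow_lt_pow_left₀ h3 (by positivity) (NeZero.ne d)
  have : (Q.card : ℝ) * V d ≤ rho d * (c + 2) ^ d := h1
  linarith [this, h4, hr2]

/-- the radii -/
noncomputable def rr (d j : ℕ) : ℝ :=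
  if 2 < kap d * (j : ℝ) ^ ((1 : ℝ) / d) then 2 / (kap d * (j : ℝ) ^ ((1 : ℝ) / d) - 2) else √d

lemma rr_nonneg (d j : ℕ) : 0 ≤ rr d j := by
  unfold rr
  split_ifs with h
  · apply div_nonneg zero_le_two; linarith
  · positivity

lemma rr_close [NeZero d] : ∀ j, 2 ≤ j → ∀ Q : Finset (EuclideanSpace ℝ (Fin d)),
    (Q : Set (EuclideanSpace ℝ (Fin d))) ⊆ Cb d 1 → Q.card = j →
      ∃ x ∈ Q, ∃ y ∈ Q, x ≠ y ∧ dist x y ≤ rr d j := by
  intro j hj Q hQ hQj
  unfold rr
  split_ifs with h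
  · have h1 : 0 < kap d * (j : ℝ) ^ ((1 : ℝ) / d) - 2 := by linarith
    apply two_close (by positivity) hQ (by omega)
    have h2 : 2 / (2 / (kap d * (j : ℝ) ^ ((1 : ℝ) / d) - 2)) + 2
        = kap d * (j : ℝ) ^ ((1 : ℝ) / d) := by
      field_simp; ring
    rw [h2, mul_pow, kap_pow, ← Real.rpow_natCast ((j : ℝ) ^ ((1 : ℝ) / d)), ← Real.rpow_mul
      (Nat.cast_nonneg j), one_div, inv_mul_cancel₀ (by exact_mod_cast NeZero.ne d),
      Real.rpow_one, hQj]
    have := (theta_pos (d := d)).ne'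
    field_simp
    exact le_rfl
  · obtain ⟨x, hx, y, hy, hxy⟩ := Finset.one_lt_card.1 (by omega : 1 < Q.card)
    exact ⟨x, hx, y, hy, hxy, dist_le_sqrt (hQ hx) (hQ hy)⟩

lemma T_le_of_tour {S : Finset (EuclideanSpace ℝ (Fin d))} {l : List (EuclideanSpace ℝ (Fin d))}
    (h : IsTour S l) : T S ≤ closedLength l :=
  csInf_le ⟨0, by rintro t ⟨l, _, rfl⟩; exact closedLength_nonneg l⟩ ⟨l, h, rfl⟩

lemma exists_tour (S : Finset (EuclideanSpace ℝ (Fin d))) : ∃ l, IsTour S l :=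
  ⟨S.toList, S.nodup_toList, by simp⟩

/-- the upper bound for tours of subsets of the unit cube -/
lemma T_le [NeZero d] {n : ℕ} {S : Finset (EuclideanSpace ℝ (Fin d))}
    (hS : ∀ x ∈ S, ∀ i, 0 ≤ x i ∧ x i ≤ 1) (hn : S.card = n) :
    T S ≤ ∑ j ∈ Finset.range n, rr d (j + 2) + √d := by
  rcases Nat.eq_zero_or_pos n with h0 | h0
  · have hl : IsTour S ([] : List (EuclideanSpace ℝ (Fin d))) := by
      refine ⟨List.nodup_nil, fun x => ?_⟩
      rw [Finset.card_eq_zero.1 (hn.trans h0)]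
      simp
    refine (T_le_of_tour hl).trans ?_
    have : closedLength ([] : List (EuclideanSpace ℝ (Fin d))) = 0 := by simp [closedLength]
    rw [this]
    have := Finset.sum_nonneg (fun j (_ : j ∈ Finset.range n) => rr_nonneg d (j + 2))
    positivity
  · obtain ⟨m, rfl⟩ : ∃ m, n = m + 1 := ⟨n - 1, by omega⟩
    have hSC : (S : Set (EuclideanSpace ℝ (Fin d))) ⊆ Cb d 1 := fun x hx => hS x hx
    obtain ⟨l, hnd, hmem, hlen⟩ := exists_path (rr_close (d := d)) S hSC hn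
    refine (T_le_of_tour ⟨hnd, hmem⟩).trans ?_
    have hsum : ∑ j ∈ Finset.range m, rr d (j + 2) ≤ ∑ j ∈ Finset.range (m + 1), rr d (j + 2) := by
      rw [Finset.sum_range_succ]
      linarith [rr_nonneg d (m + 2)]
    cases l with
    | nil =>
      simp only [closedLength, List.rotate_nil, List.zipWith_nil_right, List.sum_nil]
      have := Finset.sum_nonneg (fun j (_ : j ∈ Finset.range (m + 1)) => rr_nonneg d (j + 2))
      positivity
    | cons a l =>
      rw [closedLength_cons]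
      have h1 : dist ((a :: l).getLast (by simp)) a ≤ √d := by
        apply dist_le_sqrt
        · exact hSC ((hmem _).1 (List.getLast_mem _))
        · exact hSC ((hmem _).1 (by simp))
      linarith

lemma L_bdd [NeZero d] (n : ℕ) : BddAbove {t | ∃ S : Finset (EuclideanSpace ℝ (Fin d)),
    (∀ x ∈ S, ∀ i, 0 ≤ x i ∧ x i ≤ 1) ∧ S.card = n ∧ T S = t} :=
  ⟨_, by rintro t ⟨S, hS, hn, rfl⟩; exact T_le hS hn⟩

lemma L_le [NeZero d] (n : ℕ) : L d n ≤ ∑ j ∈ Finset.range n, rr d (j + 2) + √d := by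
  apply Real.sSup_le
  · rintro t ⟨S, hS, hn, rfl⟩; exact T_le hS hn
  · have := Finset.sum_nonneg (fun j (_ : j ∈ Finset.range n) => rr_nonneg d (j + 2))
    positivity

/-- the lower bound, for every `n ≥ 2` -/
lemma le_L [NeZero d] {n : ℕ} (hn : 2 ≤ n) :
    2 / kap d * (n : ℝ) ^ (((d : ℝ) - 1) / d) ≤ L d n := by
  classical
  have hd : (d : ℝ) ≠ 0 := by exact_mod_cast NeZero.ne d
  have hn0 : (0 : ℝ) < n := by exact_mod_cast (by omega : 0 < n)
  set c : ℝ := kap d * (n : ℝ) ^ ((1 : ℝ) / d) with hc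
  have hc0 : 0 < c := mul_pos kap_pos (Real.rpow_pos_of_pos hn0 _)
  obtain ⟨P, hP, hPC, hcard⟩ := exists_cube d hc0
  have hcd : c ^ d = V d / theta d * n := by
    rw [hc, mul_pow, kap_pow, ← Real.rpow_natCast ((n : ℝ) ^ ((1 : ℝ) / d)), ← Real.rpow_mul hn0.le,
      one_div, inv_mul_cancel₀ hd, Real.rpow_one]
  rw [hcd] at hcard
  have hPn : n ≤ P.card := by
    have h1 : rho d * (V d / theta d * n) = V d * n := by
      have := (theta_pos (d := d)).ne'
      change theta d * (V d / theta d * n) = V d * n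
      field_simp
    rw [h1, mul_comm (V d)] at hcard
    exact_mod_cast le_of_mul_le_mul_right hcard (V_pos d)
  obtain ⟨Q, hQP, hQn⟩ := Finset.exists_subset_card_eq hPn
  set S := Q.image (fun x => c⁻¹ • x) with hS
  have hinj : Function.Injective (fun x : EuclideanSpace ℝ (Fin d) => c⁻¹ • x) := by
    intro x y hxy
    exact smul_right_injective _ (inv_pos.2 hc0).ne' hxy
  have hSn : S.card = n := by rw [hS, Finset.card_image_of_injective _ hinj, hQn]
  have hSsep : Pool.Agent.H818R2.Sep (c⁻¹ * 2) S :=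
    sep_smul (inv_pos.2 hc0) (hP.mono hQP) S (by intro x; simp [hS])
  have hSC : ∀ x ∈ S, ∀ i, 0 ≤ x i ∧ x i ≤ 1 := by
    intro x hx i
    obtain ⟨y, hy, rfl⟩ := Finset.mem_image.1 hx
    have h1 := hPC (hQP hy) i
    rw [PiLp.smul_apply, smul_eq_mul]
    constructor
    · exact mul_nonneg (inv_pos.2 hc0).le h1.1
    · rw [inv_mul_le_iff₀ hc0, mul_one]; exact h1.2
  have hT : n * (c⁻¹ * 2) ≤ T S := by
    obtain ⟨l0, hl0⟩ := exists_tour S
    have hne : {t | ∃ l, IsTour S l ∧ closedLength l = t}.Nonempty := ⟨closedLength l0, l0, hl0, rfl⟩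
    apply le_csInf hne
    rintro t ⟨l, ⟨hnd, hmem⟩, rfl⟩
    have hlen : l.length = n := by
      have : l.toFinset = S := by
        ext x; rw [List.mem_toFinset]; exact hmem x
      rw [← hSn, ← this, List.toFinset_card_of_nodup hnd]
    rw [← hlen]
    apply le_closedLength hnd (by omega)
    intro x hx y hy hxy
    exact hSsep x ((hmem x).1 hx) y ((hmem y).1 hy) hxy
  refine le_trans (le_of_eq ?_) (hT.trans (le_csSup (L_bdd n) ⟨S, hSC, hSn, rfl⟩))
  have h2 : (n : ℝ) ^ (((d : ℝ) - 1) / d) = n / (n : ℝ) ^ ((1 : ℝ) / d) := by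
    rw [sub_div, div_self hd, Real.rpow_sub hn0, Real.rpow_one]
  rw [h2, hc]
  have h3 := (kap_pos (d := d)).ne'
  have h4 := (Real.rpow_pos_of_pos hn0 ((1 : ℝ) / d)).ne'
  field_simp

end Pool.Agent.H519R2.TSP
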