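import Mathlib

/-! Paths, closed tours, and greedy merging of paths (MP_3f7b2e_co). -/

namespace Pool.Agent.H519R2.TSP

section
variable {E : Type*} [MetricSpace E]

/-- length of the closed path through the points of the list `l`, in this order -/
noncomputable def closedLength (l : List E) : ℝ := (List.zipWith dist l (l.rotate 1)).sum

/-- length of the open path through the points of the list `l`, in this order -/
noncomputable def plen : List E → ℝ
  | [] => 0
  | [_] => 0
  | a :: b :: l => dist a b + plen (b :: l)

lemma plen_nonneg : ∀ l : List E, 0 ≤ plen l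
  | [] => le_rfl
  | [_] => le_rfl
  | a :: b :: l => by
    have := plen_nonneg (b :: l)
    simp only [plen]
    have := dist_nonneg (x := a) (y := b)
    linarith

lemma zip_aux (l : List E) : ∀ (a b : E),
    (List.zipWith dist (a :: l) (l ++ [b])).sum
      = plen (a :: l) + dist ((a :: l).getLast (List.cons_ne_nil _ _)) b := by
  induction l with
  | nil => intro a b; simp [plen]
  | cons c l ih =>
    intro a b
    have h := ih c b
    rw [List.cons_append, List.zipWith_cons_cons, List.sum_cons, h]
    rw [List.getLast_cons (List.cons_ne_nil c l)]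
    have : plen (a :: c :: l) = dist a c + plen (c :: l) := rfl
    rw [this]
    ring

lemma closedLength_cons (a : E) (l : List E) :
    closedLength (a :: l) = plen (a :: l) + dist ((a :: l).getLast (by simp)) a := by
  unfold closedLength
  rw [List.rotate_cons_succ, List.rotate_zero]
  exact zip_aux l a a

lemma closedLength_nonneg (l : List E) : 0 ≤ closedLength l := by
  cases l with
  | nil => simp [closedLength]
  | cons a l =>
    rw [closedLength_cons]
    have := plen_nonneg (a :: l)
    have := dist_nonneg (x := (a :: l).getLast (by simp)) (y := a)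
    linarith

lemma plen_append (b : E) (l₂ : List E) : ∀ (l₁ : List E) (h : l₁ ≠ []),
    plen (l₁ ++ b :: l₂) = plen l₁ + dist (l₁.getLast h) b + plen (b :: l₂)
  | [], h => absurd rfl h
  | [a], _ => by simp [plen]
  | a :: c :: l, _ => by
    have h := plen_append b l₂ (c :: l) (by simp)
    simp only [List.cons_append] at h ⊢
    simp only [plen]
    rw [h, List.getLast_cons (by simp : c :: l ≠ [])]
    ring

lemma plen_reverse : ∀ l : List E, plen l.reverse = plen l
  | [] => rfl
  | [_] => rfl
  | a :: b :: l => by
    have h := plen_reverse (b :: l)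
    rw [List.reverse_cons, plen_append a [] _ (by simp), h]
    have h2 : (b :: l).reverse.getLast (by simp) = b := by
      rw [List.getLast_reverse]; rfl
    rw [h2]
    simp only [plen]
    rw [dist_comm]; ring

/-- merging two paths at their heads -/
lemma plen_merge (a b : E) (l l' : List E) :
    plen ((a :: l).reverse ++ b :: l') = plen (a :: l) + dist a b + plen (b :: l') := by
  rw [plen_append b l' _ (by simp), plen_reverse]
  have h2 : (a :: l).reverse.getLast (by simp) = a := by
    rw [List.getLast_reverse]; rfl
  rw [h2]

/-- Greedy merging: if among any `j` points of the set `K` two are at distance at most `r j`,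
then a family of `m + 1` disjoint nonempty paths in `K` can be merged to a single path, at the
cost `r 2 + ... + r (m + 1)`. -/
lemma merge {K : Set E} {r : ℕ → ℝ}
    (hr : ∀ j, 2 ≤ j → ∀ Q : Finset E, (Q : Set E) ⊆ K → Q.card = j →
      ∃ x ∈ Q, ∃ y ∈ Q, x ≠ y ∧ dist x y ≤ r j) :
    ∀ (m : ℕ) (P : Multiset (List E)), P.card = m + 1 → (∀ l ∈ P, l ≠ []) →
      (P.map (fun l : List E => (l : Multiset E))).sum.Nodup →
      (∀ l ∈ P, ∀ x ∈ l, x ∈ K) →
      ∃ l : List E, (l : Multiset E) = (P.map (fun l : List E => (l : Multiset E))).sum ∧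
        plen l ≤ (P.map plen).sum + ∑ j ∈ Finset.range m, r (j + 2) := by
  classical
  intro m
  induction m with
  | zero =>
    intro P hP _ _ _
    obtain ⟨l, rfl⟩ := Multiset.card_eq_one.1 (by simpa using hP)
    exact ⟨l, by simp, by simp⟩
  | succ m ih =>
    intro P hP hne hnd hK
    -- heads
    rcases isEmpty_or_nonempty E with hE | hE
    · obtain ⟨l, hl⟩ := Multiset.card_pos_iff_exists_mem.1 (by omega : 0 < P.card)
      exact absurd (List.eq_nil_of_length_eq_zero (by
        cases l with
        | nil => rfl
        | cons a l => exact (hE.false a).elim)) (hne l hl)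
    obtain ⟨e0⟩ := hE
    set hd : List E → E := fun l => l.headD e0 with hhd
    have hsing : ∀ l ∈ P, ({hd l} : Multiset E) ≤ (l : Multiset E) := by
      intro l hl
      rw [Multiset.singleton_le, Multiset.mem_coe]
      cases l with
      | nil => exact absurd rfl (hne _ hl)
      | cons a l => simp [hhd]
    have hle : (P.map fun l => ({hd l} : Multiset E)).sum ≤
        (P.map (fun l : List E => (l : Multiset E))).sum :=
      Multiset.sum_map_le_sum_map _ _ hsing
    have hsum : (P.map fun l => ({hd l} : Multiset E)).sum = P.map hd := by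
      have := Multiset.sum_map_singleton (P.map hd)
      rw [Multiset.map_map] at this
      exact this
    rw [hsum] at hle
    have hnd2 : (P.map hd).Nodup := Multiset.nodup_of_le hle hnd
    set Q : Finset E := ⟨P.map hd, hnd2⟩ with hQ
    have hQc : Q.card = m + 2 := by
      simp [hQ, Finset.card, hP]
    have hQK : (Q : Set E) ⊆ K := by
      intro x hx
      have hx' : x ∈ P.map hd := by simpa [hQ] using hx
      obtain ⟨l, hl, rfl⟩ := Multiset.mem_map.1 hx'
      apply hK l hl
      cases l with
      | nil => exact absurd rfl (hne _ hl)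
      | cons a l => simp [hhd]
    obtain ⟨x, hx, y, hy, hxy, hd'⟩ := hr (m + 2) (by omega) Q hQK hQc
    have hx' : x ∈ P.map hd := by simpa [hQ] using hx
    have hy' : y ∈ P.map hd := by simpa [hQ] using hy
    obtain ⟨l₁, hl₁, hx1⟩ := Multiset.mem_map.1 hx'
    obtain ⟨l₂, hl₂, hy1⟩ := Multiset.mem_map.1 hy'
    obtain ⟨P₁, rfl⟩ := Multiset.exists_cons_of_mem hl₁
    have hl₂' : l₂ ∈ P₁ := by
      rcases Multiset.mem_cons.1 hl₂ with h | h
      · subst h; exact absurd (hx1.symm.trans hy1) hxy
      · exact h
    obtain ⟨P₂, rfl⟩ := Multiset.exists_cons_of_mem hl₂'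
    obtain ⟨t₁, rfl⟩ : ∃ t, l₁ = x :: t := by
      cases l₁ with
      | nil => exact absurd rfl (hne _ hl₁)
      | cons a l => exact ⟨l, by simp [hhd] at hx1; rw [hx1]⟩
    obtain ⟨t₂, rfl⟩ : ∃ t, l₂ = y :: t := by
      cases l₂ with
      | nil => exact absurd rfl (hne _ (by simp))
      | cons a l => exact ⟨l, by simp [hhd] at hy1; rw [hy1]⟩
    set l₃ : List E := (x :: t₁).reverse ++ y :: t₂ with hl₃
    have hco : ((l₃ : List E) : Multiset E) = ((x :: t₁ : List E) : Multiset E) + ((y :: t₂ : List E) : Multiset E) := by
      rw [hl₃, ← Multiset.coe_add, Multiset.coe_reverse]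
    have hsum3 : ((l₃ ::ₘ P₂).map (fun l : List E => (l : Multiset E))).sum
        = (((x :: t₁) ::ₘ (y :: t₂) ::ₘ P₂).map (fun l : List E => (l : Multiset E))).sum := by
      rw [Multiset.map_cons, Multiset.sum_cons, Multiset.map_cons, Multiset.sum_cons,
        Multiset.map_cons, Multiset.sum_cons, hco, add_assoc]
    obtain ⟨l, hl, hlen⟩ := ih (l₃ ::ₘ P₂) (by simp at hP ⊢; omega)
      (by
        intro l hl
        rcases Multiset.mem_cons.1 hl with rfl | h
        · simp [hl₃]
        · exact hne l (by simp [h]))
      (by rw [hsum3]; exact hnd)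
      (by
        intro l hl z hz
        rcases Multiset.mem_cons.1 hl with rfl | h
        · rw [hl₃, List.mem_append, List.mem_reverse] at hz
          rcases hz with hz | hz
          · exact hK _ (by simp) z hz
          · exact hK (y :: t₂) (by simp) z hz
        · exact hK l (by simp [h]) z hz)
    refine ⟨l, hl.trans hsum3, hlen.trans ?_⟩
    rw [Multiset.map_cons, Multiset.sum_cons, Multiset.map_cons, Multiset.sum_cons,
      Multiset.map_cons, Multiset.sum_cons, Finset.sum_range_succ, hl₃, plen_merge]
    linarith

/-- a single path through all points of a finite set -/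
lemma exists_path {K : Set E} {r : ℕ → ℝ}
    (hr : ∀ j, 2 ≤ j → ∀ Q : Finset E, (Q : Set E) ⊆ K → Q.card = j →
      ∃ x ∈ Q, ∃ y ∈ Q, x ≠ y ∧ dist x y ≤ r j)
    {n : ℕ} (S : Finset E) (hS : (S : Set E) ⊆ K) (hn : S.card = n + 1) :
    ∃ l : List E, l.Nodup ∧ (∀ x, x ∈ l ↔ x ∈ S) ∧
      plen l ≤ ∑ j ∈ Finset.range n, r (j + 2) := by
  classical
  have hsum : ((S.1.map (fun x : E => ([x] : List E))).map
      (fun l : List E => (l : Multiset E))).sum = S.1 := by
    rw [Multiset.map_map]
    have : ((fun l : List E => (l : Multiset E)) ∘ fun x : E => ([x] : List E))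
        = fun x : E => ({x} : Multiset E) := by
      funext x; rfl
    rw [this, Multiset.sum_map_singleton]
  obtain ⟨l, hl, hlen⟩ := merge hr n (S.1.map (fun x : E => ([x] : List E)))
    (by simpa using hn)
    (by
      intro l hl
      obtain ⟨x, _, rfl⟩ := Multiset.mem_map.1 hl
      simp)
    (by rw [hsum]; exact S.2)
    (by
      intro l hl z hz
      obtain ⟨x, hx, rfl⟩ := Multiset.mem_map.1 hl
      rw [List.mem_singleton] at hz
      subst hz
      exact hS (by simpa using hx))
  rw [hsum] at hl
  refine ⟨l, ?_, ?_, ?_⟩
  · rw [← Multiset.coe_nodup, hl]; exact S.2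
  · intro x
    rw [← Multiset.mem_coe, hl]; rfl
  · refine hlen.trans ?_
    rw [Multiset.map_map]
    have : (plen ∘ fun x : E => ([x] : List E)) = fun _ => (0 : ℝ) := by
      funext x; rfl
    rw [this]
    simp

/-- lower bound for the length of a path through separated points -/
lemma le_plen {r : ℝ} : ∀ (a : E) (l : List E), (a :: l).Pairwise (fun x y => r ≤ dist x y) →
    l.length * r ≤ plen (a :: l)
  | _, [], _ => by simp [plen]
  | a, b :: l, h => by
    have h1 := le_plen b l (List.Pairwise.of_cons h)
    have h2 : r ≤ dist a b := (List.pairwise_cons.1 h).1 b (by simp)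
    simp only [plen, List.length_cons]
    push_cast
    linarith

lemma le_closedLength {r : ℝ} {l : List E} (hl : l.Nodup) (h2 : 2 ≤ l.length)
    (h : ∀ x ∈ l, ∀ y ∈ l, x ≠ y → r ≤ dist x y) : l.length * r ≤ closedLength l := by
  cases l with
  | nil => simp at h2
  | cons a l =>
    rw [closedLength_cons]
    have hp : (a :: l).Pairwise (fun x y => r ≤ dist x y) := by
      rw [List.pairwise_iff_forall_sublist]
      intro x y hxy
      have hx : x ∈ a :: l := hxy.subset (by simp)
      have hy : y ∈ a :: l := hxy.subset (by simp)
      have hne : x ≠ y := by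
        have := (hl.sublist hxy)
        simp at this
        exact this
      exact h x hx y hy hne
    have h1 := le_plen a l hp
    have hl0 : l ≠ [] := by
      rintro rfl
      simp at h2
    have h3 : r ≤ dist ((a :: l).getLast (by simp)) a := by
      apply h _ (List.getLast_mem _) a (by simp)
      rw [List.getLast_cons hl0]
      intro hcon
      have := (List.nodup_cons.1 hl).1
      exact this (hcon ▸ List.getLast_mem hl0)
    rw [List.length_cons]
    push_cast
    linarith

end

end Pool.Agent.H519R2.TSP
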