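import Pool.Agent.H519R2.TSP.Fixed

/-! Fixed dimension, the limit `n → ∞` (MP_3f7b2e_co). -/

open MeasureTheory Metric Filter Set Pool.Agent.H818R2
open scoped Topology

namespace Pool.Agent.H519R2.TSP

variable {d : ℕ}

/-- `∑_{j=1}^n j^{-s} ≤ n^{1-s}/(1-s)` -/
lemma sum_rpow_le {s : ℝ} (hs0 : 0 ≤ s) (hs1 : s < 1) (n : ℕ) :
    ∑ j ∈ Finset.range n, ((j : ℝ) + 1) ^ (-s) ≤ (n : ℝ) ^ (1 - s) / (1 - s) := by
  induction n with
  | zero =>
    simp only [Finset.range_zero, Finset.sum_empty, Nat.cast_zero]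
    rw [Real.zero_rpow (by linarith)]
    simp
  | succ n ih =>
    rw [Finset.sum_range_succ]
    have hs : 0 < 1 - s := by linarith
    have hn : (0 : ℝ) < (n : ℝ) + 1 := by positivity
    have key : (n : ℝ) ^ (1 - s) ≤ ((n : ℝ) + 1) ^ (1 - s) - (1 - s) * ((n : ℝ) + 1) ^ (-s) := by
      have h1 : (n : ℝ) = ((n : ℝ) + 1) * (1 + (-(1 / ((n : ℝ) + 1)))) := by field_simp; ring
      have h2 : -1 ≤ -(1 / ((n : ℝ) + 1)) := by
        rw [neg_le_neg_iff, div_le_one hn]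
        have : (0 : ℝ) ≤ n := Nat.cast_nonneg n
        linarith
      have h3 := rpow_one_add_le_one_add_mul_self h2 hs.le (by linarith)
      have h4 : (0 : ℝ) ≤ 1 + (-(1 / ((n : ℝ) + 1))) := by linarith
      calc (n : ℝ) ^ (1 - s) = (((n : ℝ) + 1) * (1 + (-(1 / ((n : ℝ) + 1))))) ^ (1 - s) := by
            rw [← h1]
        _ = ((n : ℝ) + 1) ^ (1 - s) * (1 + (-(1 / ((n : ℝ) + 1)))) ^ (1 - s) :=
            Real.mul_rpow hn.le h4
        _ ≤ ((n : ℝ) + 1) ^ (1 - s) * (1 + (1 - s) * (-(1 / ((n : ℝ) + 1)))) :=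
            mul_le_mul_of_nonneg_left h3 (Real.rpow_nonneg hn.le _)
        _ = ((n : ℝ) + 1) ^ (1 - s) - (1 - s) * (((n : ℝ) + 1) ^ (1 - s) / ((n : ℝ) + 1)) := by
            ring
        _ = _ := by
            have : ((n : ℝ) + 1) ^ (-s) = ((n : ℝ) + 1) ^ (1 - s) / ((n : ℝ) + 1) := by
              rw [show -s = (1 - s) - 1 by ring, Real.rpow_sub hn, Real.rpow_one]
            rw [this]
    push_cast
    calc _ ≤ (n : ℝ) ^ (1 - s) / (1 - s) + ((n : ℝ) + 1) ^ (-s) := by linarith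
      _ ≤ (((n : ℝ) + 1) ^ (1 - s) - (1 - s) * ((n : ℝ) + 1) ^ (-s)) / (1 - s)
            + ((n : ℝ) + 1) ^ (-s) := by
          have := div_le_div_of_nonneg_right key hs.le
          linarith
      _ = ((n : ℝ) + 1) ^ (1 - s) / (1 - s) := by field_simp; ring

lemma tendsto_natCast_rpow {a : ℝ} (ha : 0 < a) :
    Tendsto (fun j : ℕ => (j : ℝ) ^ a) atTop atTop :=
  (tendsto_rpow_atTop ha).comp tendsto_natCast_atTop_atTop

/-- eventual bound of the radii -/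
lemma rr_ev [NeZero d] {ε : ℝ} (hε : 0 < ε) :
    ∀ᶠ j : ℕ in atTop, rr d j ≤ (2 / kap d + ε) * (j : ℝ) ^ (-((1 : ℝ) / d)) := by
  have hd0 : (0 : ℝ) < d := by exact_mod_cast Nat.pos_of_ne_zero (NeZero.ne d)
  have ha : (0 : ℝ) < 1 / d := by positivity
  have hk := kap_pos (d := d)
  have h1 := tendsto_natCast_rpow ha
  -- `x ≥ M` suffices
  set M : ℝ := max (4 / kap d) (8 / (kap d ^ 2 * ε)) with hM
  filter_upwards [h1.eventually_ge_atTop M, eventually_gt_atTop 0] with j hj hj0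
  set x : ℝ := (j : ℝ) ^ ((1 : ℝ) / d) with hx
  have hxM1 : 4 / kap d ≤ x := (le_max_left _ _).trans hj
  have hxM2 : 8 / (kap d ^ 2 * ε) ≤ x := (le_max_right _ _).trans hj
  have hx0 : 0 < x := lt_of_lt_of_le (by positivity) hxM1
  have h4 : 4 ≤ kap d * x := by rwa [div_le_iff₀ hk, mul_comm] at hxM1
  have h8 : 8 ≤ x * (kap d ^ 2 * ε) := by rwa [div_le_iff₀ (by positivity)] at hxM2
  have hneg : (j : ℝ) ^ (-((1 : ℝ) / d)) = 1 / x := by
    rw [Real.rpow_neg (Nat.cast_nonneg j), ← hx, one_div]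
  rw [hneg]
  unfold rr
  rw [if_pos (by linarith)]
  rw [← hx, div_le_iff₀ (by linarith)]
  have h5 : (2 / kap d + ε) * (1 / x) * (kap d * x - 2)
      = 2 + ε * kap d - (2 / kap d + ε) * 2 / x := by
    field_simp
  rw [h5]
  have h6 : (2 / kap d + ε) * 2 / x ≤ ε * kap d := by
    rw [div_le_iff₀ hx0]
    have h7 : 2 / kap d * 2 ≤ ε * kap d * x / 2 := by
      rw [div_mul_eq_mul_div, div_le_iff₀ hk]
      nlinarith
    have h8' : ε * 2 ≤ ε * kap d * x / 2 := by nlinarith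
    linarith
  linarith

lemma exp_eq [NeZero d] : ((d : ℝ) - 1) / d = 1 - 1 / d := by
  have hd : (d : ℝ) ≠ 0 := by exact_mod_cast NeZero.ne d
  field_simp

/-- upper bound for the sum of the radii -/
lemma sum_rr_le [NeZero d] (hd : 2 ≤ d) {ε : ℝ} (hε : 0 < ε) :
    ∃ C : ℝ, ∀ n : ℕ, ∑ j ∈ Finset.range n, rr d (j + 2)
      ≤ C + (2 / kap d + ε) * (d / (d - 1)) * (n : ℝ) ^ (((d : ℝ) - 1) / d) := by
  obtain ⟨J, hJ⟩ := Filter.eventually_atTop.1 (rr_ev (d := d) hε)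
  have hd0 : (2 : ℝ) ≤ d := by exact_mod_cast hd
  have hk := kap_pos (d := d)
  refine ⟨∑ j ∈ Finset.range J, rr d (j + 2), fun n => ?_⟩
  have hs1 : (1 : ℝ) / d < 1 := by rw [div_lt_one (by linarith)]; linarith
  have h1 : ∀ j ∈ Finset.range n, rr d (j + 2) ≤
      (if j < J then rr d (j + 2) else 0) + (2 / kap d + ε) * ((j : ℝ) + 1) ^ (-((1 : ℝ) / d)) := by
    intro j _
    split_ifs with h
    · have : 0 ≤ (2 / kap d + ε) * ((j : ℝ) + 1) ^ (-((1 : ℝ) / d)) := by positivity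
      linarith
    · have h2 := hJ (j + 2) (by omega)
      have h3 : (((j + 2 : ℕ) : ℝ)) ^ (-((1 : ℝ) / d)) ≤ ((j : ℝ) + 1) ^ (-((1 : ℝ) / d)) := by
        apply Real.rpow_le_rpow_of_nonpos (by positivity) (by push_cast; linarith)
        rw [neg_nonpos]; positivity
      have h4 : (0 : ℝ) ≤ 2 / kap d + ε := by positivity
      calc rr d (j + 2) ≤ _ := h2
        _ ≤ (2 / kap d + ε) * ((j : ℝ) + 1) ^ (-((1 : ℝ) / d)) := mul_le_mul_of_nonneg_left h3 h4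
        _ = _ := by ring
  refine (Finset.sum_le_sum h1).trans ?_
  rw [Finset.sum_add_distrib, ← Finset.mul_sum]
  have h5 : ∑ j ∈ Finset.range n, (if j < J then rr d (j + 2) else 0)
      ≤ ∑ j ∈ Finset.range J, rr d (j + 2) := by
    rw [← Finset.sum_filter]
    apply Finset.sum_le_sum_of_subset_of_nonneg
    · intro j hj
      rw [Finset.mem_filter] at hj
      exact Finset.mem_range.2 hj.2
    · intro j _ _; exact rr_nonneg d _
  have h6 := sum_rpow_le (s := (1 : ℝ) / d) (by positivity) hs1 n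
  have h7 : (2 / kap d + ε) * ∑ j ∈ Finset.range n, ((j : ℝ) + 1) ^ (-((1 : ℝ) / d))
      ≤ (2 / kap d + ε) * ((n : ℝ) ^ (1 - (1 : ℝ) / d) / (1 - 1 / d)) :=
    mul_le_mul_of_nonneg_left h6 (by positivity)
  have h8 : (2 / kap d + ε) * ((n : ℝ) ^ (1 - (1 : ℝ) / d) / (1 - 1 / d))
      = (2 / kap d + ε) * (d / (d - 1)) * (n : ℝ) ^ (((d : ℝ) - 1) / d) := by
    rw [exp_eq]
    have h9 : (1 : ℝ) - 1 / d = (d - 1) / d := by field_simp
    have h10 : (d : ℝ) - 1 ≠ 0 := by linarith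
    rw [h9]
    field_simp
  linarith

/-- the quotient sequence is bounded -/
lemma ev_le [NeZero d] (hd : 2 ≤ d) {ε : ℝ} (hε : 0 < ε) :
    ∀ᶠ n : ℕ in atTop, L d n / (n : ℝ) ^ (((d : ℝ) - 1) / d)
      ≤ (2 / kap d + ε) * (d / (d - 1)) + ε := by
  obtain ⟨C, hC⟩ := sum_rr_le (d := d) hd hε
  have hd0 : (2 : ℝ) ≤ d := by exact_mod_cast hd
  have hs : (0 : ℝ) < ((d : ℝ) - 1) / d := by
    apply div_pos <;> linarith
  have h1 := tendsto_natCast_rpow hs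
  filter_upwards [h1.eventually_ge_atTop (|C + √d| / ε), h1.eventually_gt_atTop 0] with n hn hn0
  rw [div_le_iff₀ hn0]
  have h2 := (L_le (d := d) n).trans (add_le_add (hC n) le_rfl)
  rw [div_le_iff₀ hε] at hn
  have h3 := le_abs_self (C + √d)
  have h4 : ((2 / kap d + ε) * (d / (d - 1)) + ε) * (n : ℝ) ^ (((d : ℝ) - 1) / d)
      = (2 / kap d + ε) * (d / (d - 1)) * (n : ℝ) ^ (((d : ℝ) - 1) / d)
        + (n : ℝ) ^ (((d : ℝ) - 1) / d) * ε := by ring
  rw [h4]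
  linarith

lemma ev_ge [NeZero d] : ∀ᶠ n : ℕ in atTop,
    2 / kap d ≤ L d n / (n : ℝ) ^ (((d : ℝ) - 1) / d) := by
  filter_upwards [eventually_ge_atTop 2] with n hn
  have hn0 : (0 : ℝ) < n := by exact_mod_cast (by omega : 0 < n)
  rw [le_div_iff₀ (Real.rpow_pos_of_pos hn0 _)]
  exact le_L hn

lemma bdd_above [NeZero d] (hd : 2 ≤ d) :
    IsBoundedUnder (· ≤ ·) atTop (fun n : ℕ => L d n / (n : ℝ) ^ (((d : ℝ) - 1) / d)) :=
  ⟨_, ev_le hd one_pos⟩

lemma bdd_below [NeZero d] :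
    IsBoundedUnder (· ≥ ·) atTop (fun n : ℕ => L d n / (n : ℝ) ^ (((d : ℝ) - 1) / d)) :=
  ⟨_, ev_ge⟩

theorem le_alpha [NeZero d] (hd : 2 ≤ d) : 2 / kap d ≤ alpha d :=
  le_limsup_of_frequently_le ev_ge.frequently (bdd_above hd)

theorem alpha_le [NeZero d] (hd : 2 ≤ d) : alpha d ≤ d / (d - 1) * (2 / kap d) := by
  have hd0 : (2 : ℝ) ≤ d := by exact_mod_cast hd
  have h : ∀ ε : ℝ, 0 < ε → alpha d ≤ (2 / kap d + ε) * (d / (d - 1)) + ε := fun ε hε =>
    limsup_le_of_le (bdd_below.isCoboundedUnder_le) (ev_le hd hε)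
  have hlim : Tendsto (fun ε : ℝ => (2 / kap d + ε) * (d / (d - 1)) + ε) (𝓝[>] 0)
      (𝓝 ((2 / kap d + 0) * (d / (d - 1)) + 0)) := by
    have : Continuous (fun ε : ℝ => (2 / kap d + ε) * ((d : ℝ) / (d - 1)) + ε) := by fun_prop
    exact (this.tendsto 0).mono_left nhdsWithin_le_nhds
  have h2 := ge_of_tendsto hlim (by
    filter_upwards [self_mem_nhdsWithin] with ε hε
    exact h ε hε)
  rw [add_zero, add_zero, mul_comm] at h2
  exact h2

end Pool.Agent.H519R2.TSP
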